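import Mathlib

set_option autoImplicit false

namespace Pool.Agent.H.Room

/-- square arrays with rows and columns indexed by `α`, symbols `none` (the symbol 0) and `some i` -/
abbrev Arr (α : Type) := α → α → Option (Sym2 (Option α))

variable {α : Type}

def Room (a : Arr α) : Prop :=
  (∀ i j p, a i j = some p → ¬p.IsDiag) ∧
  (∀ p : Sym2 (Option α), ¬p.IsDiag → ∃! c : α × α, a c.1 c.2 = some p) ∧
  (∀ x i, ∃! j, ∃ p, a i j = some p ∧ x ∈ p) ∧ ∀ x j, ∃! i, ∃ p, a i j = some p ∧ x ∈ p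

def Iso (a b : Arr α) : Prop :=
  ∃ (ρ γ : Equiv.Perm α) (σ : Equiv.Perm (Option α)), ∀ i j, b (ρ i) (γ j) = (a i j).map (Sym2.map σ)

def Std (a : Arr α) : Prop := Room a ∧ ∀ i, a i i = some s(none, some i)

def Comp (a b : Arr α) : Prop := ∀ i j, i ≠ j → (a i j = none ↔ b i j ≠ none)

def HasComp (a : Arr α) : Prop := ∃ b c, Iso a b ∧ Std b ∧ Std c ∧ Comp b c

def Skew (a : Arr α) : Prop := Std a ∧ ∀ i j, i ≠ j → (a i j = none ↔ a j i ≠ none)

def Latin (L : α → α → α) : Prop :=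
  (∀ i, Function.Bijective (L i)) ∧ ∀ j, Function.Bijective fun i => L i j

def Emb (a : Arr α) : Prop := Std a ∧ ∃ L M : α → α → α, Latin L ∧ Latin M ∧
  (Function.Bijective fun c : α × α => (L c.1 c.2, M c.1 c.2)) ∧ (∀ i, L i i = i ∧ M i i = i) ∧
  ∀ i j p, i ≠ j → a i j = some p → p = s(some (L i j), some (M i j))

end Pool.Agent.H.Room
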