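import Pool.Agent.H.b53726.A

set_option autoImplicit false

namespace Pool.Agent.H.Room

variable {α β : Type}

abbrev Mp (α : Type) := Option α → Option α → α

def Ln (ρ : Mp α) : Prop := (∀ x y, x ≠ y → ρ x y = ρ y x) ∧
  (∀ x y z, y ≠ x → z ≠ x → ρ x y = ρ x z → y = z) ∧ ∀ i, ρ none (some i) = i

def Good (ρ γ : Mp α) : Prop := Ln ρ ∧ Ln γ ∧ ∀ x y z w, x ≠ y → z ≠ w → ρ x y = ρ z w →
  γ x y = γ z w → (x = z ∧ y = w) ∨ (x = w ∧ y = z)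

def occ (ρ γ : Mp α) (i j : α) : Prop := ∃ x y, x ≠ y ∧ ρ x y = i ∧ γ x y = j

open Classical in
noncomputable def arr (ρ γ : Mp α) : Arr α := fun i j =>
  if h : occ ρ γ i j then some s(h.choose, h.choose_spec.choose) else none

lemma arr_none {ρ γ : Mp α} {i j : α} : arr ρ γ i j = none ↔ ¬occ ρ γ i j := by
  unfold arr; split_ifs with h <;> simp [h]

lemma Good.arr_some {ρ γ : Mp α} (g : Good ρ γ) {i j : α} {p : Sym2 (Option α)} :
    arr ρ γ i j = some p ↔ ∃ x y, x ≠ y ∧ ρ x y = i ∧ γ x y = j ∧ p = s(x, y) := by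
  unfold arr
  split_ifs with h
  · have := h.choose_spec.choose_spec
    refine ⟨fun e => ⟨_, _, this.1, this.2.1, this.2.2, (Option.some.inj e).symm⟩, ?_⟩
    rintro ⟨x, y, a, b, c, rfl⟩
    exact congrArg some (Sym2.eq_iff.2 (g.2.2 _ _ _ _ this.1 a (this.2.1.trans b.symm)
      (this.2.2.trans c.symm)))
  · simp only [false_iff]
    exact fun ⟨x, y, a, b, c, _⟩ => h ⟨x, y, a, b, c⟩

lemma Ln.surj [Finite α] {ρ : Mp α} (h : Ln ρ) (x : Option α) (i : α) : ∃ y, y ≠ x ∧ ρ x y = i := by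
  classical
  have e : ∀ i, Equiv.swap none x (some i) ≠ x := fun i => by simp [Equiv.swap_apply_eq_iff]
  obtain ⟨j, hj⟩ := Finite.injective_iff_surjective.1 (fun a b c => by
    simpa using h.2.1 x _ _ (e a) (e b) c : Function.Injective fun i => ρ x (Equiv.swap none x (some i))) i
  exact ⟨_, e j, hj⟩

lemma Good.mem {ρ γ : Mp α} (g : Good ρ γ) {i j : α} {x : Option α} :
    (∃ p, arr ρ γ i j = some p ∧ x ∈ p) ↔ ∃ y, y ≠ x ∧ ρ x y = i ∧ γ x y = j := by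
  simp only [g.arr_some]
  refine ⟨?_, fun ⟨y, a, b, c⟩ => ⟨_, ⟨x, y, a.symm, b, c, rfl⟩, by simp⟩⟩
  rintro ⟨_, ⟨a, b, c, rfl, rfl, rfl⟩, h⟩
  rcases Sym2.mem_iff.1 h with rfl | rfl
  exacts [⟨b, c.symm, rfl, rfl⟩, ⟨a, c, g.1.1 _ _ c.symm, g.2.1.1 _ _ c.symm⟩]

lemma Good.std [Finite α] {ρ γ : Mp α} (g : Good ρ γ) : Std (arr ρ γ) := by
  refine ⟨⟨fun i j p h => ?_, fun p => ?_, fun x i => ?_, fun x j => ?_⟩, fun i =>
    g.arr_some.2 ⟨none, some i, by simp, g.1.2.2 i, g.2.1.2.2 i, rfl⟩⟩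
  · obtain ⟨x, y, a, -, -, rfl⟩ := g.arr_some.1 h
    simpa using a
  · induction p using Sym2.ind with | _ x y => ?_
    intro h
    replace h : x ≠ y := by simpa using h
    refine ⟨(ρ x y, γ x y), g.arr_some.2 ⟨x, y, h, rfl, rfl, rfl⟩, fun c hc => ?_⟩
    obtain ⟨z, w, a, b, c, d⟩ := g.arr_some.1 hc
    rcases Sym2.eq_iff.1 d with ⟨rfl, rfl⟩ | ⟨rfl, rfl⟩
    exacts [Prod.ext b.symm c.symm, Prod.ext (b.symm.trans (g.1.1 _ _ a)) (c.symm.trans (g.2.1.1 _ _ a))]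
  · obtain ⟨y, a, b⟩ := g.1.surj x i
    refine ⟨_, g.mem.2 ⟨y, a, b, rfl⟩, fun j h => ?_⟩
    obtain ⟨z, c, d, e⟩ := g.mem.1 h
    rw [← e, g.1.2.1 x z y c a (d.trans b.symm)]
  · obtain ⟨y, a, b⟩ := g.2.1.surj x j
    refine ⟨_, g.mem.2 ⟨y, a, rfl, b⟩, fun j h => ?_⟩
    obtain ⟨z, c, d, e⟩ := g.mem.1 h
    rw [← d, g.2.1.2.1 x z y c a (e.trans b.symm)]

/-- position in the original square of the diagonal cells of a standardized isomorphic copy -/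
lemma Good.iso {ρ γ : Mp α} (g : Good ρ γ) {b : Arr α} {r c : Equiv.Perm α}
    {σ : Equiv.Perm (Option α)} (h : ∀ i j, b (r i) (c j) = (arr ρ γ i j).map (Sym2.map σ))
    (hb : ∀ i, b i i = some s(none, some i)) {u : Option α} {i : α} (hu : σ u = some i) :
    r (ρ (σ.symm none) u) = i ∧ c (γ (σ.symm none) u) = i := by
  have := h (r.symm i) (c.symm i)
  rw [r.apply_symm_apply, c.apply_symm_apply, hb, eq_comm, Option.map_eq_some_iff] at this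
  obtain ⟨p, h1, h2⟩ := this
  obtain ⟨x, y, a, e1, e2, rfl⟩ := g.arr_some.1 h1
  rw [← hu] at h2
  rcases Sym2.eq_iff.1 h2 with ⟨p, q⟩ | ⟨p, q⟩
  · rw [← p, σ.symm_apply_apply, ← σ.injective q, e1, e2]; simp
  · rw [← q, σ.symm_apply_apply, ← σ.injective p, ← g.1.1 _ _ a, ← g.2.1.1 _ _ a, e1, e2]; simp

lemma Good.hasComp [Finite α] {ρ γ ρ' γ' : Mp α} (g : Good ρ γ) (g' : Good ρ' γ')
    (h : ∀ i j, i ≠ j → (occ ρ' γ' i j ↔ ¬occ ρ γ i j)) : Room (arr ρ γ) ∧ HasComp (arr ρ γ) :=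
  ⟨g.std.1, _, _, ⟨1, 1, 1, by simp⟩, g.std, g'.std, fun i j e => by simp [arr_none, h i j e]⟩

end Pool.Agent.H.Room
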